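import Pool.Agent.Helper42.DB.Goals2

set_option autoImplicit false

/-!
# Packet DECCNT of MP_48f005_an
-/

namespace Pool.Agent.Helper42.DB.PkDECCNT

open Set Filter Topology

lemma cnt_mono (hcup : G_CUP) {α : Type} [Fintype α] (n : ℕ) (P R : (ℕ → α) → Prop)
    (h : ∀ w, R w → P w) : cnt n R ≤ cnt n P := by
  have := hcup α Unit n {()} (fun _ => P) R (fun w hw => ⟨(), by simp, h w hw⟩)
  simpa using this

lemma sh_sh {α : Type} (g l : ℕ) (w : ℕ → α) : sh l (sh g w) = sh (g + l) w := by
  funext k; simp [sh, Nat.add_assoc]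

theorem thm : G_CAT → G_CUP → G_DECCNT := by
  intro hcat hcup α _ L Rh h ζ ε K Q _ hK hQ hA hR q
  have hK0 : 0 < K := by linarith
  have hQ0 : 0 < Q := by linarith
  induction q with
  | zero =>
    intro N R
    by_cases hR0 : R = 0
    · subst hR0
      have h1 : cnt N (Dec L.P Rh 0 N 0) ≤ cnt N (L.P N) := by
        refine cnt_mono hcup N _ _ ?_
        intro w hw
        cases hw with
        | nil _ _ hP => exact hP
      have h2 : (cnt N (Dec L.P Rh 0 N 0) : ℝ) ≤ (L.A N : ℝ) := by exact_mod_cast h1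
      refine h2.trans ((hA N).trans (le_of_eq ?_))
      simp
    · have h1 : cnt N (Dec L.P Rh 0 N R) = 0 := by
        have : {w : ℕ → α | Dec L.P Rh 0 N R w} = ∅ := by
          ext w
          simp only [mem_ofPred_eq, mem_empty_iff_false, iff_false]
          intro hw
          cases hw with
          | nil _ _ hP => exact hR0 rfl
        unfold cnt
        rw [this]; simp
      rw [h1]
      simp only [Nat.cast_zero]
      positivity
  | succ q ih =>
    intro N R
    classical
    set s : Finset (ℕ × ℕ) := (Finset.range (N + 1) ×ˢ Finset.range (N + 1)).filter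
      (fun x => x.1 + x.2 ≤ N ∧ x.2 ≤ R) with hs
    set Px : ℕ × ℕ → (ℕ → α) → Prop := fun x w => L.P x.1 w ∧
      (Rh x.2 (sh x.1 w) ∧ Dec L.P Rh q (N - x.1 - x.2) (R - x.2) (sh x.2 (sh x.1 w))) with hPx
    have hcov : ∀ w, Dec L.P Rh (q + 1) N R w → ∃ x ∈ s, Px x w := by
      intro w hw
      cases hw with
      | cons _ g l N' R' _ hP hRh hD =>
        refine ⟨(g, l), ?_, hP, hRh, ?_⟩
        · rw [hs, Finset.mem_filter, Finset.mem_product, Finset.mem_range, Finset.mem_range]
          refine ⟨⟨?_, ?_⟩, ?_, ?_⟩ <;> simp only <;> omega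
        · simp only
          rw [sh_sh]
          have e1 : g + l + N' - g - l = N' := by omega
          have e2 : l + R' - l = R' := by omega
          rw [e1, e2]
          exact hD
    have hsum : cnt N (Dec L.P Rh (q + 1) N R) ≤ ∑ x ∈ s, cnt N (Px x) :=
      hcup α (ℕ × ℕ) N s Px _ hcov
    set B : ℝ := (((N : ℝ) + 1) ^ 2) ^ q * K ^ (q + 2) * Q ^ (q + 1) *
      Real.exp ((h + ζ) * (N - R) + (h - ε) * R) with hB
    have hterm : ∀ x ∈ s, (cnt N (Px x) : ℝ) ≤ B := by
      rintro ⟨g, l⟩ hx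
      rw [hs, Finset.mem_filter] at hx
      obtain ⟨-, hgl, hlR⟩ := hx
      simp only at hgl hlR
      obtain ⟨N', hN'⟩ : ∃ N', N = g + (l + N') := ⟨N - g - l, by omega⟩
      obtain ⟨R', hR'⟩ : ∃ R', R = l + R' := ⟨R - l, by omega⟩
      have e1 : N - g - l = N' := by omega
      have e2 : R - l = R' := by omega
      have h1 : cnt N (Px (g, l)) ≤ cnt g (L.P g) * (cnt l (Rh l) * cnt N' (Dec L.P Rh q N' R')) := by
        have c1 := hcat α g (l + N') (L.P g)
          (fun v => Rh l v ∧ Dec L.P Rh q N' R' (sh l v))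
        have c2 := hcat α l N' (Rh l) (Dec L.P Rh q N' R')
        have c3 : cnt N (Px (g, l)) = cnt (g + (l + N')) (fun w => L.P g w ∧
            (fun v => Rh l v ∧ Dec L.P Rh q N' R' (sh l v)) (sh g w)) := by
          rw [hPx]
          simp only [e1, e2]
          rw [← hN']
        rw [c3]
        exact c1.trans (Nat.mul_le_mul_left _ c2)
      have h2 : (cnt N (Px (g, l)) : ℝ) ≤ (L.A g : ℝ) * ((cnt l (Rh l) : ℝ) *
          (cnt N' (Dec L.P Rh q N' R') : ℝ)) := by
        exact_mod_cast h1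
      have h3 := ih N' R'
      have h4 : (L.A g : ℝ) * ((cnt l (Rh l) : ℝ) * (cnt N' (Dec L.P Rh q N' R') : ℝ)) ≤
          (K * Real.exp ((h + ζ) * g)) * ((Q * Real.exp ((h - ε) * l)) *
          ((((N' : ℝ) + 1) ^ 2) ^ q * K ^ (q + 1) * Q ^ q *
            Real.exp ((h + ζ) * (N' - R') + (h - ε) * R'))) := by
        gcongr
        · exact hA g
        · exact hR l
      refine h2.trans (h4.trans ?_)
      have e3 : (K * Real.exp ((h + ζ) * g)) * ((Q * Real.exp ((h - ε) * l)) *
          ((((N' : ℝ) + 1) ^ 2) ^ q * K ^ (q + 1) * Q ^ q *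
            Real.exp ((h + ζ) * (N' - R') + (h - ε) * R')))
          = (((N' : ℝ) + 1) ^ 2) ^ q * K ^ (q + 2) * Q ^ (q + 1) *
            Real.exp ((h + ζ) * (N - R) + (h - ε) * R) := by
        have : Real.exp ((h + ζ) * (N - R) + (h - ε) * R) = Real.exp ((h + ζ) * g) *
            (Real.exp ((h - ε) * l) * Real.exp ((h + ζ) * (N' - R') + (h - ε) * R')) := by
          rw [← Real.exp_add, ← Real.exp_add]
          congr 1
          rw [hN', hR']
          push_cast
          ring
        rw [this]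
        ring
      rw [e3, hB]
      have h5 : ((N' : ℝ) + 1) ≤ (N : ℝ) + 1 := by
        have : (N' : ℝ) ≤ N := by exact_mod_cast (by omega : N' ≤ N)
        linarith
      gcongr
    have hcard : (s.card : ℝ) ≤ ((N : ℝ) + 1) ^ 2 := by
      have : s.card ≤ (N + 1) ^ 2 := by
        refine (Finset.card_filter_le _ _).trans ?_
        rw [Finset.card_product, Finset.card_range, sq]
      exact_mod_cast this
    have hB0 : 0 ≤ B := by rw [hB]; positivity
    calc (cnt N (Dec L.P Rh (q + 1) N R) : ℝ) ≤ ∑ x ∈ s, (cnt N (Px x) : ℝ) := by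
          exact_mod_cast hsum
      _ ≤ ∑ _x ∈ s, B := Finset.sum_le_sum hterm
      _ = s.card * B := by rw [Finset.sum_const, nsmul_eq_mul]
      _ ≤ ((N : ℝ) + 1) ^ 2 * B := mul_le_mul_of_nonneg_right hcard hB0
      _ = _ := by rw [hB]; ring

end Pool.Agent.Helper42.DB.PkDECCNT
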